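import Mathlib

namespace Pool.Agent.Results.MP_c49196_nt.MissingProgression

open ArithmeticFunction

/-- A semiprime: a product of two primes, not necessarily distinct. -/
def IsSemiprime (s : ℕ) : Prop := ∃ p q : ℕ, p.Prime ∧ q.Prime ∧ s = p * q

/-- The distance from `2 ^ n` to the smallest odd semiprime exceeding it. -/
noncomputable def a (n : ℕ) : ℕ :=
  sInf {s : ℕ | 2 ^ n < s ∧ Odd s ∧ IsSemiprime s} - 2 ^ n

/-- The residue. -/
def K : ℕ :=
  55509163023645581400859779676974701054247071891376964102395792188235923785414069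

/-- The modulus. -/
def M : ℕ :=
  59271079212045357140618523395725121505822437148457399678755741584356219300093950

/-- Pairs of factors used by the twofold covering of the residues modulo 360. -/
def prs : List (ℕ × ℕ) :=
  [(3, 3), (3, 7), (7, 5), (3, 19), (3, 73), (7, 17), (17, 13), (5, 5), (5, 11), (5, 31),
   (5, 41), (3, 37), (3, 109), (5, 151), (5, 331), (17, 73), (17, 433), (73, 241), (17, 38737),
   (7, 11), (11, 13), (7, 31), (31, 13), (7, 61), (13, 331), (7, 1321), (7, 61681), (13, 61681),
   (13, 4562284561), (11, 241), (31, 241), (151, 241), (241, 61681), (241, 631), (241, 23311)]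

/-- The check on the list of pairs. -/
def okPairs : Bool :=
  prs.all fun xy => decide (1 < xy.1) && decide (1 < xy.2) && decide (xy.1 * xy.2 < K) &&
    decide (2 ^ 360 % (xy.1 * xy.2) = 1) && decide (M % (xy.1 * xy.2) = 0)

/-- The check on the exponents modulo 360. -/
def okCover : Bool :=
  (List.range 360).all fun r => prs.any fun xy => decide ((2 ^ r + K) % (xy.1 * xy.2) = 0)

theorem okPairs_true : okPairs = true := by decide +kernel

theorem okCover_true : okCover = true := by decide +kernel

theorem not_semiprime {s x y : ℕ} (hx : 1 < x) (hy : 1 < y) (hd : x * y ∣ s)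
    (hlt : x * y < s) : ¬ IsSemiprime s := by
  rintro ⟨p, q, hp, hq, rfl⟩
  obtain ⟨c, hc⟩ := hd
  have hx0 : x ≠ 0 := by omega
  have hy0 : y ≠ 0 := by omega
  have hpq : p * q ≠ 0 := mul_ne_zero hp.ne_zero hq.ne_zero
  have hc0 : c ≠ 0 := by
    rintro rfl
    exact hpq (by simpa using hc)
  have h1 : cardFactors (p * q) = 2 := by
    rw [cardFactors_mul hp.ne_zero hq.ne_zero, cardFactors_apply_prime hp,
      cardFactors_apply_prime hq]
  have h2 : cardFactors (p * q) = cardFactors x + cardFactors y + cardFactors c := by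
    rw [hc, cardFactors_mul (mul_ne_zero hx0 hy0) hc0, cardFactors_mul hx0 hy0]
  have h3 : 0 < cardFactors x := cardFactors_pos_iff_one_lt.2 hx
  have h4 : 0 < cardFactors y := cardFactors_pos_iff_one_lt.2 hy
  have h5 : cardFactors c = 0 := by omega
  have h6 : c = 0 ∨ c = 1 := cardFactors_eq_zero_iff_eq_zero_or_one.1 h5
  rcases h6 with h6 | h6
  · exact hc0 h6
  · rw [h6, mul_one] at hc
    omega

theorem not_semiprime_two_pow_add (t n : ℕ) : ¬ IsSemiprime (2 ^ n + (K + M * t)) := by
  have hr : n % 360 < 360 := Nat.mod_lt _ (by norm_num)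
  have h1 := okCover_true
  unfold okCover at h1
  rw [List.all_eq_true] at h1
  have h2 := h1 (n % 360) (List.mem_range.2 hr)
  rw [List.any_eq_true] at h2
  obtain ⟨xy, hxy, h3⟩ := h2
  have h3' : (2 ^ (n % 360) + K) % (xy.1 * xy.2) = 0 := of_decide_eq_true h3
  have h4 := okPairs_true
  unfold okPairs at h4
  rw [List.all_eq_true] at h4
  have h5 := h4 xy hxy
  simp only [Bool.and_eq_true, decide_eq_true_eq] at h5
  obtain ⟨⟨⟨⟨hx, hy⟩, hlt⟩, hpow⟩, hM⟩ := h5
  refine not_semiprime hx hy ?_ ?_
  · have hM' : xy.1 * xy.2 ∣ M * t := Dvd.dvd.mul_right (Nat.dvd_of_mod_eq_zero hM) t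
    have h6 : xy.1 * xy.2 ∣ 2 ^ n + K := by
      rw [Nat.dvd_iff_mod_eq_zero, ← Nat.div_add_mod n 360, pow_add, pow_mul]
      have h7 : (2 ^ 360) ^ (n / 360) * 2 ^ (n % 360) + K ≡ 2 ^ (n % 360) + K
          [MOD xy.1 * xy.2] := by
        have h8 : 2 ^ 360 ≡ 1 [MOD xy.1 * xy.2] := by
          have h9 : 1 < xy.1 * xy.2 := by nlinarith
          exact hpow.trans (Nat.mod_eq_of_lt h9).symm
        have h10 := ((h8.pow (n / 360)).mul_right (2 ^ (n % 360))).add_right K
        simpa using h10
      exact Eq.trans h7 h3'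
    have h11 := Nat.dvd_add h6 hM'
    rwa [add_assoc] at h11
  · calc xy.1 * xy.2 < K := hlt
      _ ≤ K + M * t := Nat.le_add_right _ _
      _ ≤ 2 ^ n + (K + M * t) := Nat.le_add_left _ _

/-- Every member of the arithmetic progression `K + M * t` of odd positive integers is missed by
the sequence `a`; in particular not every odd positive integer is a value of `a`. -/
theorem result : ∃ k₀ m : ℕ, Odd k₀ ∧ 0 < m ∧ Even m ∧ ∀ t n : ℕ, a n ≠ k₀ + m * t := by
  refine ⟨K, M, by decide +kernel, by decide +kernel, by decide +kernel, ?_⟩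
  intro t n h
  have hK : 0 < K := by decide +kernel
  have hpos : 0 < a n := by omega
  set S : Set ℕ := {s : ℕ | 2 ^ n < s ∧ Odd s ∧ IsSemiprime s} with hS
  have ha : a n = sInf S - 2 ^ n := rfl
  have hne : S.Nonempty := by
    by_contra hemp
    rw [Set.not_nonempty_iff_eq_empty] at hemp
    rw [ha, hemp, Nat.sInf_empty, Nat.zero_sub] at hpos
    exact lt_irrefl _ hpos
  have hmem : sInf S ∈ S := Nat.sInf_mem hne
  have hval : sInf S = 2 ^ n + (K + M * t) := by omega
  have hsemi : IsSemiprime (2 ^ n + (K + M * t)) := by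
    rw [← hval]
    exact hmem.2.2
  exact not_semiprime_two_pow_add t n hsemi

end Pool.Agent.Results.MP_c49196_nt.MissingProgression
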